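import Pool.Agent.H699.T.DT

/-!
# From all query densities to the frozen statement
-/

set_option autoImplicit false

namespace Pool.Agent.H161.T.DIAG

open Finset Classical
open Pool.Agent.H699.T

theorem walk_nonneg {α : Type} {d : α → α → ℝ} (h : ∀ x y, 0 ≤ d x y) :
    ∀ l : List α, 0 ≤ walk d l
  | [] => le_rfl
  | [_] => le_rfl
  | a :: b :: l => add_nonneg (h a b) (walk_nonneg h (b :: l))

theorem cyc_nonneg {α : Type} {d : α → α → ℝ} (h : ∀ x y, 0 ≤ d x y) (l : List α) :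
    0 ≤ cyc d l := by
  cases l with
  | nil => exact le_rfl
  | cons a l => exact walk_nonneg h _

theorem tsp_nonneg {α : Type} {d : α → α → ℝ} (h : ∀ x y, 0 ≤ d x y) (S : Finset α) :
    0 ≤ tsp d S := by
  refine Real.sInf_nonneg ?_
  rintro c ⟨l, _, rfl⟩
  exact cyc_nonneg h l

theorem rmet_nonneg {n : ℕ} {d : Fin n → Fin n → ℝ} (h : RMet d) (x y : Fin n) : 0 ≤ d x y := by
  by_cases hxy : x = y
  · rw [hxy, h.met.self]
  · exact (h.pos x y hxy).le

/-- the whole matrix can be read -/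
theorem read_all (hL : S_LOCBASIC) (n : ℕ) :
    LocOn (Set.univ : Set (Fin n → Fin n → ℝ)) (n * n) (fun d => tsp d univ) := by
  obtain ⟨_, _, h3, _, _, h6, h7⟩ := hL
  have h8 := h7 (Fin n) ℝ (Fin n → ℝ) (Fin n) Set.univ n (univ : Finset (Fin n))
    (fun x d => d x) (fun x _ => by
      have := h6 (Fin n) ℝ Set.univ x
      rwa [Fintype.card_fin] at this)
  rw [card_univ, Fintype.card_fin] at h8
  refine h3 (Fin n) ℝ (Fin n → Fin n → ℝ) ℝ Set.univ (n * n) _ _ h8 ?_
  intro d _ d' _ hdd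
  have : d = d' := by
    funext i
    have h9 := congrFun hdd i
    simpa using h9
  rw [this]

theorem count {m : ℕ} (hm : 0 < m) {P : Fin m → Prop} {Q : Fin m → Prop}
    (hP : pr (fun s => ¬ P s) ≤ 1 / 3) (hPQ : ∀ s, P s → Q s) :
    2 * m ≤ 3 * Nat.card {s : Fin m // Q s} := by
  have h1 : pr (fun s : Fin m => ¬ P s) = ((univ.filter fun s : Fin m => ¬ P s).card : ℝ) / m := by
    unfold pr ex
    rw [Fintype.card_fin, Finset.card_filter]
    push_cast
    refine congrArg (fun t : ℝ => t / m) (sum_congr rfl fun x _ => ?_)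
    by_cases hx : P x <;> simp [hx]
  rw [h1, div_le_iff₀ (by exact_mod_cast hm)] at hP
  have h2 : 3 * (univ.filter fun s : Fin m => ¬ P s).card ≤ m := by
    have : (3 : ℝ) * ((univ.filter fun s : Fin m => ¬ P s).card : ℝ) ≤ m := by linarith
    exact_mod_cast this
  have h3 : (univ.filter fun s : Fin m => P s).card + (univ.filter fun s : Fin m => ¬ P s).card =
      m := by
    rw [Finset.card_filter_add_card_filter_not, card_univ, Fintype.card_fin]
  have h4 : (univ.filter fun s : Fin m => P s).card ≤ Nat.card {s : Fin m // Q s} := by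
    rw [Nat.card_eq_fintype_card, Fintype.card_subtype]
    exact card_le_card fun s hs => by
      simp only [mem_filter, mem_univ, true_and] at hs ⊢
      exact hPQ s hs
  omega

theorem t_DIAG : S_TSPATT → S_TSPLE → S_TSPPERM → S_LOCBASIC → S_STEP → S_ETA → S_FROZEN := by
  intro _ _ hperm hloc hstep heta
  obtain ⟨δ, hδ0, hδ1, hη⟩ := heta
  have hη' : ∀ j : ℕ, ∃ n0 : ℕ, ∀ n : ℕ, n0 ≤ n →
      ∃ m : ℕ, 0 < m ∧ ∃ P : Fin m → DT (Fin n) ℝ ℝ,
        ∀ d, RMet d → (∀ s, ((P s).cost d : ℝ) ≤ (1 / ((j : ℝ) + 1)) * n ^ 2) ∧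
          pr (fun s : Fin m => ¬ (tsp d univ ≤ (P s).eval d ∧
            (P s).eval d ≤ (2 - δ) * tsp d univ)) ≤ 1 / 3 :=
    fun j => hη (1 / ((j : ℝ) + 1)) (by positivity)
  choose n0 hn0 using hη'
  -- the index
  obtain ⟨J, hJ⟩ : ∃ J : ℕ → ℕ, ∀ n, J n = Nat.findGreatest (fun j => n0 j ≤ n) n :=
    ⟨_, fun _ => rfl⟩
  refine ⟨δ, hδ0, fun n => if n0 (J n) ≤ n then n ^ 2 / (J n + 1) else n ^ 2, ?_, ?_⟩
  · rw [Asymptotics.isLittleO_iff]
    intro c hc
    obtain ⟨j0, hj0⟩ := exists_nat_one_div_lt hc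
    filter_upwards [Filter.eventually_ge_atTop (max j0 (n0 j0))] with n hn
    have h1 : j0 ≤ n := le_trans (le_max_left _ _) hn
    have h2 : n0 j0 ≤ n := le_trans (le_max_right _ _) hn
    have h3 : n0 (J n) ≤ n := by
      rw [hJ]
      exact Nat.findGreatest_spec (P := fun j => n0 j ≤ n) h1 h2
    have h4 : j0 ≤ J n := by
      rw [hJ]
      exact Nat.le_findGreatest (P := fun j => n0 j ≤ n) h1 h2
    rw [if_pos h3, Real.norm_of_nonneg (by positivity), Real.norm_of_nonneg (by positivity)]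
    have h5 : ((n ^ 2 / (J n + 1) : ℕ) : ℝ) ≤ ((n ^ 2 : ℕ) : ℝ) / ((J n + 1 : ℕ) : ℝ) :=
      Nat.cast_div_le
    refine h5.trans ?_
    push_cast
    have h6 : (n : ℝ) ^ 2 / ((J n : ℝ) + 1) ≤ (n : ℝ) ^ 2 / ((j0 : ℝ) + 1) := by
      have : (j0 : ℝ) ≤ J n := by exact_mod_cast h4
      gcongr
    refine h6.trans ?_
    rw [div_eq_mul_one_div, mul_comm]
    exact mul_le_mul_of_nonneg_right hj0.le (by positivity)
  · intro n
    by_cases hn : n0 (J n) ≤ n
    · obtain ⟨m, hm, P, hP⟩ := hn0 (J n) n hn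
      obtain ⟨step, hst⟩ := hstep n m P
      refine ⟨m, hm, step, fun d hd0 hd1 hd2 hd3 => ?_⟩
      have hmet : RMet d := ⟨⟨hd0, hd2, fun x y z => hd3 x y z⟩, hd1⟩
      obtain ⟨hc, hp⟩ := hP d hmet
      refine count hm hp fun s hs => ?_
      refine ⟨(P s).eval d, ?_, ?_, ?_⟩
      · refine hst s d _ ?_
        show (P s).cost d ≤ if n0 (J n) ≤ n then n ^ 2 / (J n + 1) else n ^ 2
        rw [if_pos hn, Nat.le_div_iff_mul_le (Nat.succ_pos _)]
        have h1 := hc s
        have h2 : ((P s).cost d : ℝ) * ((J n : ℝ) + 1) ≤ (n : ℝ) ^ 2 := by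
          have h3 : (0 : ℝ) < (J n : ℝ) + 1 := by positivity
          calc ((P s).cost d : ℝ) * ((J n : ℝ) + 1)
              ≤ ((1 / ((J n : ℝ) + 1)) * n ^ 2) * ((J n : ℝ) + 1) :=
                mul_le_mul_of_nonneg_right h1 h3.le
            _ = (n : ℝ) ^ 2 := by
                field_simp
        exact_mod_cast h2
      · rw [hperm n d hmet.met]
        exact hs.1
      · rw [hperm n d hmet.met]
        exact hs.2
    · obtain ⟨P, hP⟩ := read_all hloc n
      obtain ⟨step, hst⟩ := hstep n 1 (fun _ => P)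
      refine ⟨1, one_pos, step, fun d hd0 hd1 hd2 hd3 => ?_⟩
      have hmet : RMet d := ⟨⟨hd0, hd2, fun x y z => hd3 x y z⟩, hd1⟩
      obtain ⟨h1, h2⟩ := hP d (Set.mem_univ d)
      have h3 : (0 : ℝ) ≤ tsp d univ := tsp_nonneg (rmet_nonneg hmet) _
      refine count (P := fun _ => True) one_pos ?_ fun s _ => ?_
      · unfold pr ex
        simp
      · refine ⟨P.eval d, ?_, ?_, ?_⟩
        · refine hst s d _ ?_
          show P.cost d ≤ if n0 (J n) ≤ n then n ^ 2 / (J n + 1) else n ^ 2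
          rw [if_neg hn]
          calc P.cost d ≤ n * n := h2
            _ = n ^ 2 := (sq n).symm
        · rw [hperm n d hmet.met, h1]
        · rw [hperm n d hmet.met, h1]
          nlinarith

end Pool.Agent.H161.T.DIAG
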